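import Pool.Agent.H60.LQ.Cfg
import Pool.Agent.H36.KTH.UFT

/-!
# LQ, row UFT2: `t₁` and the time of `O` are uniform given the lines 0, 1 and the times `t`, `r`
-/

set_option autoImplicit false

namespace Pool.LQ

open Finset Real
open Pool.Agent.H49.Ent Pool.Agent.H32.Dense Pool.KTH
open Pool.Agent.H36.KTH.UFT

theorem uft2 : UFT2Stmt := by
  intro d
  refine ⟨5, by norm_num, ?_⟩
  intro J F L sb K G h
  have hq := F.hq
  have hG := h.G0
  have hlog : 0 ≤ Real.log ((J : ℝ) + 2) := Real.log_nonneg (by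
    have : (0 : ℝ) ≤ J := Nat.cast_nonneg J
    linarith)
  have t1 := h.ct₁
  -- the mean closeness of `r` and `t₁`
  have t2 : F.eg F.r F.t₁ ≤ G := by
    have := h.ge
    unfold en at this
    have g1 := eg_nonneg F F.t F.s
    have g2 := eg_nonneg F F.t₁ F.t
    have g3 := eg_nonneg F F.t₁ F.s
    have g4 := eg_nonneg F F.r F.t
    have g5 := eg_nonneg F F.r F.s
    have g6 := eg_nonneg F F.tr F.s
    have g7 := eg_nonneg F F.ta F.s
    have g8 := eg_nonneg F F.ta F.tr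
    have g9 := eg_nonneg F F.ta F.TO
    linarith
  -- chain rule
  have b1 := CH_chain hq F.TO F.t₁ (fun w => (F.v01 w, (F.t w, F.r w), F.Z w))
  have b1' : CH F.q (fun w => (F.t₁ w, F.TO w)) (fun w => (F.v01 w, (F.t w, F.r w), F.Z w)) =
      CH F.q (fun w => (F.TO w, F.t₁ w)) (fun w => (F.v01 w, (F.t w, F.r w), F.Z w)) := by
    refine CH_congr hq ?_ ?_ ?_ ?_ <;>
    · intro w w' _ _ e
      try simp only [Prod.mk.injEq] at e ⊢
      tauto
  have b2 : CH F.q F.t₁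
      (fun w => (F.v3 w, (F.t w, F.s w), (F.r w, F.tr w, F.ta w), F.Z w)) ≤
      CH F.q F.t₁ (fun w => (F.v01 w, (F.t w, F.r w), F.Z w)) := by
    refine CH_mono_cond hq ?_
    intro w w' _ _ e
    simp only [Prod.mk.injEq, Cf.v3, Cf.v01] at e ⊢
    tauto
  have b3 : CH F.q F.TO (fun w => (hat (F.t w) (F.s w) (F.t₁ w) - F.t₁ w,
      (F.t₁ w, (F.v01 w, (F.t w, F.r w), F.Z w)))) ≤
      CH F.q F.TO (fun w => (F.t₁ w, (F.v01 w, (F.t w, F.r w), F.Z w))) := by
    refine CH_mono_cond hq ?_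
    intro w w' _ _ e
    exact (Prod.ext_iff.mp e).2
  have b4 := CH_le_add hq F.s F.TO (fun w => (hat (F.t w) (F.s w) (F.t₁ w) - F.t₁ w,
      (F.t₁ w, (F.v01 w, (F.t w, F.r w), F.Z w))))
  have b5 := CH_le_add hq F.s (fun w => hat (F.t w) (F.s w) (F.t₁ w) - F.t₁ w)
    (fun w => (F.t₁ w, (F.v01 w, (F.t w, F.r w), F.Z w)))
  have b6 : CH F.q (fun w => hat (F.t w) (F.s w) (F.t₁ w) - F.t₁ w)
      (fun w => (F.t₁ w, (F.v01 w, (F.t w, F.r w), F.Z w))) ≤ 2 := by
    refine (CH_time_le (M := 3) hq F.h1 (fun w _ => ?_) _).trans ?_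
    · obtain ⟨_, _, h3, h4⟩ := hat_spec (F.t w) (F.s w) (F.t₁ w)
      push_cast
      constructor <;> omega
    · have : Real.log ((3 : ℕ) : ℝ) ≤ (2 : ℕ) := log_le_of_pow (by norm_num) (by norm_num)
      push_cast at this ⊢
      exact this
  have b7 : CH F.q F.s (fun w => (F.v01 w, (F.t w, F.t₁ w, F.r w), F.Z w)) ≤
      CH F.q F.s (fun w => (F.t₁ w, (F.v01 w, (F.t w, F.r w), F.Z w))) := by
    refine CH_mono_cond hq ?_
    intro w w' _ _ e
    simp only [Prod.mk.injEq, Cf.v01] at e ⊢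
    tauto
  have b7' := h.cst
  have b8 : CH F.q F.s (fun w => (F.TO w, (hat (F.t w) (F.s w) (F.t₁ w) - F.t₁ w,
      (F.t₁ w, (F.v01 w, (F.t w, F.r w), F.Z w))))) ≤ 3 + F.eg F.r F.t₁ := by
    refine (CH_le_int hq F.h1 F.s _ (fun w => 9 * ((2 : ℝ) ^ J / max 1 |(F.r w : ℝ) - F.t₁ w|))
      (fun w w' a b e => ?_)).trans ?_
    · simp only [Prod.mk.injEq] at e
      obtain ⟨e1, e2, e3, e4, e5, e6⟩ := e
      have e7 : F.t w = F.t w' := e5.1
      have e8 : F.r w = F.r w' := e5.2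
      have k1 : hat (F.t w) (F.s w') (F.t₁ w) = hat (F.t w) (F.s w) (F.t₁ w) := by
        rw [← e7, ← e3] at e2
        omega
      have k2 : F.s w + ct (F.t w) (F.s w) (F.t₁ w) (F.r w) =
          F.s w' + ct (F.t w) (F.s w') (F.t₁ w) (F.r w) := by
        unfold Cf.TO Cf.c cP at e1
        rw [← e7, ← e3, ← e8] at e1
        exact e1
      have hM : (0 : ℤ) < ((2 ^ J : ℕ) : ℤ) := by positivity
      have := count hM (F.ht w a) (F.ht₁ w a) (F.hs w a) (F.hs w' b) rfl k1 k2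
      push_cast at this ⊢
      exact this
    · calc Ex F.q (fun w => Real.log (2 * (9 * ((2 : ℝ) ^ J / max 1 |(F.r w : ℝ) - F.t₁ w|)) + 1))
          ≤ Ex F.q (fun w => 3 + gp J (F.r w) (F.t₁ w)) :=
            Ex_mono hq fun w _ => log_count (by positivity)
        _ = 3 + F.eg F.r F.t₁ := by
            rw [Ex_add, Ex_const F.h1]
            rfl
  show 2 * lm J - CH F.q (fun w => (F.t₁ w, F.TO w)) (fun w => (F.v01 w, (F.t w, F.r w), F.Z w)) ≤
    2 * K + 5 * (G + 1 + Real.log (J + 2))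
  linarith

end Pool.LQ
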