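import Pool.Agent.H60.LQ.Two
import Pool.Agent.H64.LQ.TLN2

/-!
# LQ, row ACO3: the information `I(C; O)`
-/

set_option autoImplicit false

namespace Pool.LQ

open Finset Real
open Pool.Agent.H49.Ent Pool.Agent.H32.Dense Pool.KTH
open Pool.Agent.H64.LQ

/-- ACO3 -/
theorem aco3 (hDIR : DIR3Stmt) (hTLN : TLN2Stmt) (hFCK : FCK2Stmt) : ACO3Stmt := by
  intro d hd ε hε
  obtain ⟨Ca, hCa, hD⟩ := hDIR d
  obtain ⟨Cb, hCb, hT⟩ := (hTLN d hd).1
  obtain ⟨C₁, hC₁, h₁⟩ := hFCK d hd (ε / 2) (by positivity)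
  have hl : 0 < Real.log 2 := Real.log_pos (by norm_num)
  have hCn : 0 ≤ Ca + Cb := by positivity
  obtain ⟨C₂, hC₂, h₂⟩ := log_le (ε * Real.log 2 / (2 * (Ca + Cb + 1))) (by positivity)
  refine ⟨C₁ + (Ca + Cb) + (Ca + Cb) * C₂, by positivity, fun J F L sb K G hF => ?_⟩
  have hq := F.hq
  have b1 : (Ca + Cb) * Real.log (J + 2) ≤ ε / 2 * lm J + (Ca + Cb) * C₂ := by
    have e1 := mul_le_mul_of_nonneg_left (h₂ J) hCn
    have e2 : (Ca + Cb) * (ε * Real.log 2 / (2 * (Ca + Cb + 1)) * J) ≤ ε / 2 * lm J := by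
      have : (Ca + Cb) * (ε * Real.log 2 / (2 * (Ca + Cb + 1)) * J) =
          (Ca + Cb) / (Ca + Cb + 1) * (ε / 2 * lm J) := by
        unfold lm
        field_simp
      rw [this]
      have h3 : 0 ≤ ε / 2 * lm J := by unfold lm; positivity
      calc (Ca + Cb) / (Ca + Cb + 1) * (ε / 2 * lm J) ≤ 1 * (ε / 2 * lm J) := by
            refine mul_le_mul_of_nonneg_right ?_ h3
            rw [div_le_one (by positivity)]
            linarith
        _ = ε / 2 * lm J := one_mul _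
    rw [mul_add] at e1
    linarith
  -- FACT K
  have b2 := h₁ J F.Ω F.ζ F.q F.Z F.v₁ F.v₀ F.u₁ F.u₀ F.t F.s K
    F.hq F.h1 (by simpa using F.hv₁) (by simpa using F.hv₀) F.hu₁ F.hu₀
    (by simpa using F.ht) (by simpa using F.hs) (fun w hw => (F.cross01 w hw).symm) (by
      have c1 := hF.cs
      have c2 : CH F.q F.s (fun w => (F.v01 w, F.t w, F.Z w)) ≤
          CH F.q F.s (fun w => ((F.v₁ w, F.v₀ w), F.Z w)) := by
        refine CH_mono_cond F.hq fun ω ω' _ _ h => ?_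
        simp only [Prod.mk.injEq, Cf.v01] at h ⊢
        tauto
      linarith)
  have b3 : Ex F.q (fun w => gp J (F.s w) (F.t w)) ≤ G := by
    have e1 : Ex F.q (fun w => gp J (F.s w) (F.t w)) = F.eg F.t F.s := by
      unfold Cf.eg
      congr 1
      funext w
      exact gp_comm _ _ _
    rw [e1]
    exact (eg_ts_le F).trans hF.ge
  have b4 : C₁ * (1 + Ex F.q (fun w => gp J (F.s w) (F.t w))) ≤ C₁ * (1 + G) :=
    mul_le_mul_of_nonneg_left (by linarith) hC₁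
  have b5 := hD J F
  have b6 : Ca * (en F + 1 + Real.log (J + 2)) ≤ Ca * (G + 1 + Real.log (J + 2)) :=
    mul_le_mul_of_nonneg_left (by linarith [hF.ge]) hCa
  have b7 := hT J F L sb K G hF
  -- `H(c | v₁, C) ≥ H(c | v01, t, s) = lm - eta`
  have a4 : CH F.q F.c (fun w => (F.v01 w, (F.t w, F.s w), F.Z w)) ≤
      CH F.q F.c (fun w => ((F.v₁ w, F.C w), F.Z w)) := by
    refine CH_mono_cond hq ?_
    intro w w' hw hw' hh
    simp only [Prod.mk.injEq, Cf.v01] at hh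
    obtain ⟨⟨e2, e3⟩, ⟨e4, e1⟩, e5⟩ := hh
    have e6 : F.u₀ w = F.u₀ w' := F.hu₀ w w' hw hw' (Prod.ext e2 e5)
    simp only [Prod.mk.injEq]
    refine ⟨⟨e3, ?_⟩, e5⟩
    unfold Cf.C pp
    rw [e1, e2, e6]
  have a5 : eta F = lm J - CH F.q F.c (fun w => (F.v01 w, (F.t w, F.s w), F.Z w)) := rfl
  -- `H(C, O) ≥ H(v₁, C) + H(c | v₁, C) - DIR`
  have c1 : CH F.q (fun w => (F.v₁ w, (F.C w, F.O w))) F.Z =
      CH F.q (fun w => (F.C w, F.O w)) F.Z +
        CH F.q F.v₁ (fun w => ((F.C w, F.O w), F.Z w)) := CH_chain hq _ _ _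
  have c2 : CH F.q F.v₁ (fun w => ((F.C w, F.O w), F.Z w)) ≤
      CH F.q F.v₁ (fun w => (F.O w, F.C w, F.Z w)) := by
    refine CH_mono_cond hq ?_
    intro w w' _ _ hh
    simp only [Prod.mk.injEq] at hh ⊢
    tauto
  have c3 : CH F.q (fun w => (F.c w, (F.v₁ w, F.C w))) F.Z =
      CH F.q (fun w => (F.v₁ w, F.C w)) F.Z +
        CH F.q F.c (fun w => ((F.v₁ w, F.C w), F.Z w)) := CH_chain hq _ _ _
  have c5 : CH F.q (fun w => (F.c w, (F.v₁ w, F.C w))) F.Z ≤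
      CH F.q (fun w => (F.v₁ w, (F.C w, F.O w))) F.Z := by
    refine CH_mono_left hq ?_
    intro w w' _ _ hh
    simp only [Prod.mk.injEq] at hh
    obtain ⟨⟨e1, e2, e3⟩, e4⟩ := hh
    have e5 : F.s w = F.s w' := congrArg Prod.fst e2
    have e6 : F.s w + F.c w = F.s w' + F.c w' := congrArg Prod.fst e3
    simp only [Prod.mk.injEq]
    exact ⟨by linarith, e1, e2⟩
  -- `H(v₁, C) ≥ H(v₀, v₁) + H(s | v₀, v₁) - H(v₀ | v₁, C)`
  have d1 : CH F.q (fun w => (F.v₀ w, (F.v₁ w, F.C w))) F.Z =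
      CH F.q (fun w => (F.v₁ w, F.C w)) F.Z +
        CH F.q F.v₀ (fun w => ((F.v₁ w, F.C w), F.Z w)) := CH_chain hq _ _ _
  have d2 : CH F.q F.v₀ (fun w => ((F.v₁ w, F.C w), F.Z w)) ≤
      CH F.q F.v₀ (fun w => (F.v₁ w, pp J F.u₀ F.v₀ F.s w, F.Z w)) := by
    refine CH_mono_cond hq ?_
    intro w w' _ _ hh
    simp only [Prod.mk.injEq, Cf.C] at hh ⊢
    tauto
  have d3 : CH F.q (fun w => (F.s w, F.v01 w)) F.Z =
      CH F.q F.v01 F.Z + CH F.q F.s (fun w => (F.v01 w, F.Z w)) := CH_chain hq _ _ _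
  have d4 : CH F.q (fun w => (F.s w, F.v01 w)) F.Z ≤
      CH F.q (fun w => (F.v₀ w, (F.v₁ w, F.C w))) F.Z := by
    refine CH_mono_left hq ?_
    intro w w' _ _ hh
    simp only [Prod.mk.injEq] at hh
    obtain ⟨⟨e1, e2, e3⟩, e4⟩ := hh
    have e5 : F.s w = F.s w' := congrArg Prod.fst e3
    simp only [Prod.mk.injEq, Cf.v01]
    exact ⟨e5, e1, e2⟩
  have d5 : CH F.q F.s (fun w => (F.v01 w, F.t w, F.Z w)) ≤
      CH F.q F.s (fun w => (F.v01 w, F.Z w)) := by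
    refine CH_mono_cond hq ?_
    intro w w' _ _ hh
    simp only [Prod.mk.injEq] at hh ⊢
    exact ⟨hh.1, hh.2.2⟩
  have d6 := hF.cs
  have hsC := hF.sC
  have b8 : 0 ≤ (Ca + Cb) * C₂ * G := by have := hF.G0; positivity
  have b9 : (C₁ + (Ca + Cb) + (Ca + Cb) * C₂) * (G + 1) =
      C₁ * (1 + G) + (Ca + Cb) * (G + 1) + (Ca + Cb) * C₂ * G + (Ca + Cb) * C₂ := by ring
  have b10 : Ca * (G + 1 + Real.log (J + 2)) + Cb * (G + 1 + Real.log (J + 2)) =
      (Ca + Cb) * (G + 1) + (Ca + Cb) * Real.log (J + 2) := by ring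
  simp only at b5 b7 ⊢
  unfold Cf.ic
  linarith

end Pool.LQ
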